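import Mathlib

/-!
# The two-sided action of an alternating group on itself is non-synchronizing

The proof: a set `A` of even permutations of a set `X` which is sharply transitive (for all `x, y`
exactly one element of `A` maps `x` to `y`) shows that the partition of the alternating group
according to the image of a point is regular. If the number of points is odd, the powers of a cycle
form such a set. If `X = ZMod m × Bool`, then let `H` be the group of the translations of the first
coordinate, all of them are even, and let `u` be an even permutation which exchanges the two layers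
(it exists if `m ≥ 2`); then `H ∪ H u` is sharply transitive.
-/

set_option autoImplicit false

namespace Pool.Agent.Results.MP_358f87_al.AlternatingGroups

open Equiv

/-- The set `A` is a transversal of the partition of `Ω` into the classes of `ρ`: it meets every
class in exactly one point. -/
def IsTransversal {Ω : Type} (ρ : Setoid Ω) (A : Set Ω) : Prop :=
  ∀ x : Ω, ∃! a : Ω, a ∈ A ∧ ρ a x

/-- The partition of `Ω` into the classes of `ρ` is `G`-regular: for some set `A`, all the images
of `A` under the elements of the permutation group `G` are transversals. -/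
def IsRegular {Ω : Type} (G : Subgroup (Equiv.Perm Ω)) (ρ : Setoid Ω) : Prop :=
  ∃ A : Set Ω, ∀ g ∈ G, IsTransversal ρ (g '' A)

/-- The permutation group `G` on `Ω` is synchronizing: `Ω` has more than two elements and the only
`G`-regular partitions are the partition into singletons and the partition with a single part. -/
def Synchronizing {Ω : Type} (G : Subgroup (Equiv.Perm Ω)) : Prop :=
  2 < Nat.card Ω ∧ ∀ ρ : Setoid Ω, IsRegular G ρ → ρ = ⊥ ∨ ρ = ⊤

/-- The permutation group `S × S` on `S`: the permutations `x ↦ g⁻¹ x h`, `g, h ∈ S`. -/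
def twoSided (S : Type) [Group S] : Subgroup (Equiv.Perm S) where
  carrier := {π | ∃ g h : S, ∀ x, π x = g⁻¹ * x * h}
  one_mem' := ⟨1, 1, fun x => by simp⟩
  mul_mem' := by
    rintro π π' ⟨g, h, H⟩ ⟨g', h', H'⟩
    exact ⟨g' * g, h' * h, fun x => by rw [Equiv.Perm.mul_apply, H, H']; group⟩
  inv_mem' := by
    rintro π ⟨g, h, H⟩
    refine ⟨g⁻¹, h⁻¹, fun x => ?_⟩
    rw [Equiv.Perm.inv_eq_iff_eq, H]
    group

/-- A sharply transitive set of even permutations of `X` -/
def Sharp (X : Type) [Fintype X] [DecidableEq X] (A : Set (Perm X)) : Prop :=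
  (∀ a ∈ A, Perm.sign a = 1) ∧ ∀ x y, ∃! a : Perm X, a ∈ A ∧ a x = y

theorem Sharp.transport {X Y : Type} [Fintype X] [DecidableEq X] [Fintype Y] [DecidableEq Y]
    (e : X ≃ Y) {A : Set (Perm X)} (h : Sharp X A) : Sharp Y ((fun a => e.permCongr a) '' A) := by
  refine ⟨?_, fun x y => ?_⟩
  · rintro _ ⟨a, ha, rfl⟩
    simpa using h.1 a ha
  · obtain ⟨a, ⟨ha, hxy⟩, hu⟩ := h.2 (e.symm x) (e.symm y)
    refine ⟨e.permCongr a, ⟨⟨a, ha, rfl⟩, by simp [hxy]⟩, ?_⟩
    rintro _ ⟨⟨b, hb, rfl⟩, hb2⟩
    have : b = a := hu b ⟨hb, by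
      have := congrArg e.symm hb2
      simpa using this⟩
    rw [this]

theorem units_pow_odd (u : ℤˣ) {n : ℕ} (hn : Odd n) (h : u ^ n = 1) : u = 1 := by
  rcases Int.units_eq_one_or u with h1 | h1
  · exact h1
  · rw [h1, hn.neg_one_pow] at h
    rw [h1, h]

theorem sharp_odd (n : ℕ) [NeZero n] (hn : Odd n) : ∃ A, Sharp (ZMod n) A := by
  refine ⟨Set.range fun c : ZMod n => (Equiv.addRight c : Perm (ZMod n)), ?_, fun x y => ?_⟩
  · rintro _ ⟨c, rfl⟩
    refine units_pow_odd _ hn ?_
    rw [← map_pow]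
    have : (Equiv.addRight c : Perm (ZMod n)) ^ n = 1 := by
      have h : ∀ k : ℕ, (Equiv.addRight c : Perm (ZMod n)) ^ k = Equiv.addRight (k • c) := by
        intro k
        induction k with
        | zero => ext x; simp
        | succ k ih =>
          rw [pow_succ, ih]
          ext x
          simp [add_smul, add_comm]
      rw [h]
      ext x
      simp
    rw [this, map_one]
  · refine ⟨Equiv.addRight (y - x), ⟨⟨_, rfl⟩, by simp⟩, ?_⟩
    rintro _ ⟨⟨c, rfl⟩, hc⟩
    have : c = y - x := by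
      rw [← hc]
      simp
    rw [this]

/-- the translation of the first coordinate -/
def tr (m : ℕ) (c : ZMod m) : Perm (ZMod m × Bool) :=
  Equiv.prodCongr (Equiv.addRight c) (Equiv.refl Bool)

@[simp] theorem tr_apply (m : ℕ) (c : ZMod m) (x : ZMod m × Bool) : tr m c x = (x.1 + c, x.2) := rfl

theorem sign_tr (m : ℕ) [NeZero m] (c : ZMod m) : Perm.sign (tr m c) = 1 := by
  have h : tr m c = Equiv.prodCongrLeft (fun _ : Bool => (Equiv.addRight c : Perm (ZMod m))) := by
    ext x <;> rfl
  rw [h, Perm.sign_prodCongrLeft]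
  simp

/-- an even permutation which exchanges the layers -/
theorem exists_u (m : ℕ) [NeZero m] (hm : 2 ≤ m) :
    ∃ u : Perm (ZMod m × Bool), Perm.sign u = 1 ∧ ∀ x, (u x).2 = !x.2 := by
  let s : Perm (ZMod m × Bool) := Equiv.prodCongr (Equiv.refl (ZMod m)) Equiv.boolNot
  have hs : ∀ x, s x = (x.1, !x.2) := fun x => rfl
  rcases Int.units_eq_one_or (Perm.sign s) with h | h
  · exact ⟨s, h, fun x => by rw [hs]⟩
  · have : Fact (1 < m) := ⟨by omega⟩
    have hne : ((0 : ZMod m), false) ≠ ((1 : ZMod m), false) := by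
      intro h0
      exact zero_ne_one (congrArg Prod.fst h0)
    refine ⟨s * swap (0, false) (1, false), ?_, fun x => ?_⟩
    · rw [Perm.sign_mul, h, Perm.sign_swap hne]
      rfl
    · rw [Perm.mul_apply, hs]
      show (!(swap ((0 : ZMod m), false) (1, false) x).2) = !x.2
      congr 1
      rcases eq_or_ne x (0, false) with h1 | h1
      · rw [h1, swap_apply_left]
      · rcases eq_or_ne x (1, false) with h2 | h2
        · rw [h2, swap_apply_right]
        · rw [swap_apply_of_ne_of_ne h1 h2]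

theorem sharp_even (m : ℕ) [NeZero m] (hm : 2 ≤ m) : ∃ A, Sharp (ZMod m × Bool) A := by
  obtain ⟨u, hu1, hu2⟩ := exists_u m hm
  refine ⟨{a | ∃ c, a = tr m c ∨ a = tr m c * u}, ?_, fun x y => ?_⟩
  · rintro _ ⟨c, rfl | rfl⟩
    · exact sign_tr m c
    · rw [Perm.sign_mul, hu1, sign_tr, one_mul]
  · by_cases h : y.2 = x.2
    · refine ⟨tr m (y.1 - x.1), ⟨⟨_, Or.inl rfl⟩, ?_⟩, ?_⟩
      · rw [tr_apply]
        exact Prod.ext (by simp) h.symm
      · rintro _ ⟨⟨c, rfl | rfl⟩, hc⟩
        · rw [← hc]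
          simp
        · exfalso
          have h1 := congrArg Prod.snd hc
          rw [Perm.mul_apply, tr_apply] at h1
          change (u x).2 = y.2 at h1
          rw [hu2, h] at h1
          simp at h1
    · have h' : y.2 = !x.2 := by
        revert h
        cases y.2 <;> cases x.2 <;> simp
      refine ⟨tr m (y.1 - (u x).1) * u, ⟨⟨_, Or.inr rfl⟩, ?_⟩, ?_⟩
      · rw [Perm.mul_apply, tr_apply]
        exact Prod.ext (by simp) (by rw [hu2, h'])
      · rintro _ ⟨⟨c, rfl | rfl⟩, hc⟩
        · exfalso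
          exact h (by rw [← hc, tr_apply])
        · rw [← hc]
          simp

theorem exists_sharp (n : ℕ) (hn : 3 ≤ n) : ∃ A, Sharp (Fin n) A := by
  rcases Nat.even_or_odd' n with ⟨m, rfl | rfl⟩
  · have : NeZero m := ⟨by omega⟩
    obtain ⟨A, hA⟩ := sharp_even m (by omega)
    have e : ZMod m × Bool ≃ Fin (2 * m) := Fintype.equivOfCardEq (by
      simp [ZMod.card, mul_comm])
    exact ⟨_, hA.transport e⟩
  · obtain ⟨A, hA⟩ := sharp_odd (2 * m + 1) ⟨m, rfl⟩
    have e : ZMod (2 * m + 1) ≃ Fin (2 * m + 1) := Fintype.equivOfCardEq (by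
      simp [ZMod.card])
    exact ⟨_, hA.transport e⟩

/-- For all `n ≥ 4`, in particular for all simple alternating groups, the permutation group
`A_n × A_n` on `A_n`, with the action `x ↦ g⁻¹ x h`, is non-synchronizing. -/
theorem result (n : ℕ) (hn : 4 ≤ n) : ¬ Synchronizing (twoSided (alternatingGroup (Fin n))) := by
  obtain ⟨A, hA, hA2⟩ := exists_sharp n (by omega)
  let x0 : Fin n := ⟨0, by omega⟩
  let x1 : Fin n := ⟨1, by omega⟩
  let x2 : Fin n := ⟨2, by omega⟩
  let x3 : Fin n := ⟨3, by omega⟩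
  have h01 : x0 ≠ x1 := by simp [x0, x1]
  have h02 : x0 ≠ x2 := by simp [x0, x2]
  have h03 : x0 ≠ x3 := by simp [x0, x3]
  have h12 : x1 ≠ x2 := by simp [x1, x2]
  have h13 : x1 ≠ x3 := by simp [x1, x3]
  have h23 : x2 ≠ x3 := by simp [x2, x3]
  rintro ⟨-, H⟩
  let ρ : Setoid (alternatingGroup (Fin n)) := Setoid.ker fun σ => (σ : Perm (Fin n)) x0
  have hρ : ∀ σ τ, ρ σ τ ↔ (σ : Perm (Fin n)) x0 = (τ : Perm (Fin n)) x0 := fun σ τ => Iff.rfl
  have hreg : IsRegular (twoSided (alternatingGroup (Fin n))) ρ := by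
    refine ⟨{σ | (σ : Perm (Fin n)) ∈ A}, ?_⟩
    rintro π ⟨g, h, hπ⟩ σ
    obtain ⟨a, ⟨haA, ha⟩, hu⟩ := hA2 ((h : Perm (Fin n)) x0) ((g : Perm (Fin n)) ((σ : Perm (Fin n)) x0))
    have hσ : ∀ b : alternatingGroup (Fin n), ρ (π b) σ ↔
        (b : Perm (Fin n)) ((h : Perm (Fin n)) x0) = (g : Perm (Fin n)) ((σ : Perm (Fin n)) x0) := by
      intro b
      rw [hρ, hπ]
      simp only [Subgroup.coe_mul, InvMemClass.coe_inv, Perm.mul_apply]
      rw [Perm.inv_eq_iff_eq, eq_comm]
    refine ⟨π ⟨a, Perm.mem_alternatingGroup.2 (hA a haA)⟩, ⟨⟨_, haA, rfl⟩, (hσ _).2 ha⟩, ?_⟩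
    rintro _ ⟨⟨b, hb, rfl⟩, hb2⟩
    have := hu b ⟨hb, (hσ b).1 hb2⟩
    congr 1
    exact Subtype.ext this
  rcases H ρ hreg with h | h
  · -- a three-cycle fixes the point
    let c : Perm (Fin n) := swap x1 x2 * swap x2 x3
    have hc : Perm.sign c = 1 := by
      rw [Perm.sign_mul, Perm.sign_swap h12, Perm.sign_swap h23]
      rfl
    have hc0 : c x0 = x0 := by
      simp only [c, Perm.mul_apply]
      rw [swap_apply_of_ne_of_ne h02 h03, swap_apply_of_ne_of_ne h01 h02]
    have h1 : ρ ⟨c, Perm.mem_alternatingGroup.2 hc⟩ 1 := by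
      rw [hρ]
      simpa using hc0
    rw [h] at h1
    have h2 : (⟨c, Perm.mem_alternatingGroup.2 hc⟩ : alternatingGroup (Fin n)) = 1 := h1
    have h3 : c = 1 := congrArg Subtype.val h2
    have h4 : c x3 = x3 := by rw [h3]; rfl
    simp only [c, Perm.mul_apply] at h4
    rw [swap_apply_right, swap_apply_right] at h4
    exact h13 h4
  · obtain ⟨a, ⟨haA, ha⟩, -⟩ := hA2 x0 x1
    have h1 : ρ ⟨a, Perm.mem_alternatingGroup.2 (hA a haA)⟩ 1 := by
      rw [h]
      trivial
    rw [hρ] at h1
    apply h01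
    rw [← ha]
    simpa using h1.symm

end Pool.Agent.Results.MP_358f87_al.AlternatingGroups
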